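import Pool.Agent.TH38.BQ3.Defs

/-!
# Completability of small rows over polynomial rings over local domains
-/

set_option autoImplicit false

open Polynomial

namespace Pool.Agent.TH38.BQ3

namespace Cmv

variable {A B : Type} [CommRing A] [CommRing B]

theorem compl_map (φ : A →+* B) {f : Fin 3 → A} (h : Compl f) : Compl (fun i => φ (f i)) := by
  obtain ⟨M, h1, h2⟩ := h
  refine ⟨M.map φ, ?_, ?_⟩
  · have h3 : (M.map φ).det = φ M.det := (RingHom.map_det φ M).symm
    rw [h3]
    exact h1.map φ
  · funext i
    rw [← h2]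
    rfl

theorem compl_swap {f g : Fin 3 → A} (hfg : ∑ i, f i * g i = 1) (h : Compl f) : Compl g := by
  obtain ⟨M, h1, h2⟩ := h
  set v : Fin 3 → A := M.mulVec g with hv
  have hv0 : v 0 = 1 := by
    rw [hv, Matrix.mulVec, h2]
    exact hfg
  set N : Matrix (Fin 3) (Fin 3) A := Matrix.of ![![v 0, 0, 0], ![v 1, 1, 0], ![v 2, 0, 1]] with hN
  have hNdet : N.det = 1 := by
    rw [hN, Matrix.det_fin_three]
    simp [hv0]
  have hcol : ∀ k, N k 0 = v k := by
    intro k
    rw [hN]
    fin_cases k <;> simp
  refine ⟨(M⁻¹ * N).transpose, ?_, ?_⟩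
  · rw [Matrix.det_transpose, Matrix.det_mul, hNdet, mul_one]
    exact Matrix.isUnit_nonsing_inv_det M h1
  · funext i
    rw [Matrix.transpose_apply, Matrix.mul_apply]
    simp only [hcol]
    have h3 : (M⁻¹).mulVec v = g := by
      rw [hv, Matrix.mulVec_mulVec, Matrix.nonsing_inv_mul M h1, Matrix.one_mulVec]
    exact congrFun h3 i

theorem compl_unit {f : Fin 3 → A} (i : Fin 3) (h : IsUnit (f i)) : Compl f := by
  have hrow : ∀ r s : Fin 3 → A, (Matrix.of ![f, r, s] : Matrix (Fin 3) (Fin 3) A) 0 = f := by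
    intro r s
    rfl
  fin_cases i
  · refine ⟨Matrix.of ![f, ![0, 1, 0], ![0, 0, 1]], ?_, hrow _ _⟩
    have : (Matrix.of ![f, ![0, 1, 0], ![0, 0, 1]] : Matrix (Fin 3) (Fin 3) A).det = f 0 := by
      rw [Matrix.det_fin_three]
      simp
    rw [this]
    exact h
  · refine ⟨Matrix.of ![f, ![1, 0, 0], ![0, 0, 1]], ?_, hrow _ _⟩
    have : (Matrix.of ![f, ![1, 0, 0], ![0, 0, 1]] : Matrix (Fin 3) (Fin 3) A).det = - f 1 := by
      rw [Matrix.det_fin_three]
      simp
    rw [this]
    exact IsUnit.neg h
  · refine ⟨Matrix.of ![f, ![1, 0, 0], ![0, 1, 0]], ?_, hrow _ _⟩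
    have : (Matrix.of ![f, ![1, 0, 0], ![0, 1, 0]] : Matrix (Fin 3) (Fin 3) A).det = f 2 := by
      rw [Matrix.det_fin_three]
      simp
    rw [this]
    exact h

end Cmv

open Cmv in
theorem complmv (hl : S_linear) : S_complmv := by
  intro L _ _ _ h2 m
  induction m with
  | zero =>
    intro f g hfg _
    set φ : MvPolynomial (Fin 0) L ≃+* L := MvPolynomial.isEmptyRingEquiv L (Fin 0) with hφ
    have h1 : ∑ i, φ (f i) * φ (g i) = 1 := by
      have := congrArg φ hfg
      rw [map_sum, map_one] at this
      simpa only [map_mul] using this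
    have h3 : ∃ i, IsUnit (φ (f i)) := by
      by_contra hcon
      push Not at hcon
      have h4 : ∑ i, φ (f i) * φ (g i) ∈ IsLocalRing.maximalIdeal L := by
        refine Ideal.sum_mem _ fun i _ => Ideal.mul_mem_right _ _ ?_
        rw [IsLocalRing.mem_maximalIdeal]
        exact hcon i
      rw [h1] at h4
      exact (Ideal.ne_top_iff_one _).1 (Ideal.IsMaximal.ne_top inferInstance) h4
    obtain ⟨i, hi⟩ := h3
    refine compl_unit i ?_
    have h5 := hi.map φ.symm
    rwa [RingEquiv.symm_apply_apply] at h5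
  | succ m ih =>
    intro f g hfg hdeg
    set e := MvPolynomial.finSuccEquiv L m with he
    have hFG : ∑ i, e (f i) * e (g i) = 1 := by
      have := congrArg e hfg
      rw [map_sum, map_one] at this
      simpa only [map_mul] using this
    have hGF : ∑ i, e (g i) * e (f i) = 1 := by
      rw [← hFG]
      exact Finset.sum_congr rfl fun i _ => mul_comm _ _
    have h2A : IsUnit (2 : MvPolynomial (Fin m) L) := by
      have := h2.map (algebraMap L (MvPolynomial (Fin m) L))
      rwa [map_ofNat] at this
    have h00 : ∑ i, (e (f i)).eval 0 * (e (g i)).eval 0 = 1 := by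
      have := congrArg (Polynomial.eval 0) hFG
      rw [Polynomial.eval_finsetSum, Polynomial.eval_one] at this
      simpa only [Polynomial.eval_mul] using this
    have hd : ∀ (p : MvPolynomial (Fin (m + 1)) L) (k : Fin m), p.degreeOf k.succ ≤ 1 →
        ((e p).eval 0).degreeOf k ≤ 1 := by
      intro p k hp
      rw [← Polynomial.coeff_zero_eq_eval_zero]
      exact (MvPolynomial.degreeOf_coeff_finSuccEquiv p k 0).trans hp
    have hF0 : Compl (fun i => (e (f i)).eval 0) := by
      refine ih _ _ h00 fun k => ?_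
      rcases hdeg k.succ with h | h
      · exact Or.inl fun i => hd _ _ (h i)
      · exact Or.inr fun i => hd _ _ (h i)
    have hCF : Compl (fun i => e (f i)) := by
      rcases hdeg 0 with h | h
      · exact hl _ h2A _ _ hFG (fun i => by
          rw [he, MvPolynomial.natDegree_finSuccEquiv]
          exact h i) hF0
      · exact compl_swap hGF (hl _ h2A _ _ hGF (fun i => by
          rw [he, MvPolynomial.natDegree_finSuccEquiv]
          exact h i) (compl_swap h00 hF0))
    have h5 := compl_map (e.symm : (MvPolynomial (Fin m) L)[X] →+* MvPolynomial (Fin (m + 1)) L) hCF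
    convert h5 using 2 with i
    simp

end Pool.Agent.TH38.BQ3
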