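import Pool.Agent.TH38.BQ3.Defs

/-!
# Linear unimodular rows of length three are completable
-/

set_option autoImplicit false

open Polynomial

namespace Pool.Agent.TH38.BQ3

namespace Lin

theorem compl_of_vecMul {A : Type} [CommRing A] {f : Fin 3 → A} {N : Matrix (Fin 3) (Fin 3) A}
    (hN : IsUnit N.det) (h : Compl (Matrix.vecMul f N)) : Compl f := by
  obtain ⟨M, hM, h0⟩ := h
  refine ⟨M * N⁻¹, ?_, ?_⟩
  · rw [Matrix.det_mul]
    exact hM.mul (Matrix.isUnit_nonsing_inv_det N hN)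
  · rw [Matrix.mul_apply_eq_vecMul, h0, Matrix.vecMul_vecMul, Matrix.mul_nonsing_inv N hN,
      Matrix.vecMul_one]

theorem nilp {A : Type} [CommRing A] {b0 b1 b2 : A} {g0 g1 g2 : A[X]}
    (h : (1 + C b0 * X) * g0 + (C b1 * X) * g1 + (C b2 * X) * g2 = 1) :
    ∃ (m : ℕ) (s1 s2 : A), b0 ^ (m + 1) = s1 * b1 + s2 * b2 := by
  set J : Ideal A := Ideal.span {b1, b2} with hJ
  have h1 : Ideal.Quotient.mk J b1 = 0 :=
    Ideal.Quotient.eq_zero_iff_mem.2 (Ideal.subset_span (by simp))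
  have h2 : Ideal.Quotient.mk J b2 = 0 :=
    Ideal.Quotient.eq_zero_iff_mem.2 (Ideal.subset_span (by simp))
  have h3 := congrArg (Polynomial.map (Ideal.Quotient.mk J)) h
  simp only [Polynomial.map_add, Polynomial.map_mul, Polynomial.map_one, Polynomial.map_C,
    Polynomial.map_X, h1, h2, map_zero, zero_mul, add_zero] at h3
  have h4 : IsUnit (1 + C (Ideal.Quotient.mk J b0) * X : (A ⧸ J)[X]) :=
    IsUnit.of_mul_eq_one _ h3
  have h5 := (Polynomial.isUnit_iff_coeff_isUnit_isNilpotent.1 h4).2 1 one_ne_zero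
  rw [coeff_add, coeff_C_mul, coeff_X_one, mul_one, coeff_one, if_neg (by norm_num), zero_add] at h5
  obtain ⟨m, hm⟩ := h5
  rw [← map_pow, Ideal.Quotient.eq_zero_iff_mem] at hm
  have h6 : b0 ^ (m + 1) ∈ J := by
    rw [pow_succ]
    exact J.mul_mem_right _ hm
  rw [hJ, Ideal.mem_span_pair] at h6
  obtain ⟨u, v, huv⟩ := h6
  exact ⟨m, u, v, huv.symm⟩

theorem special (hs : S_swan) (hq : S_sqrt) {A : Type} [CommRing A] (h2 : IsUnit (2 : A))
    {b0 b1 b2 : A} {g0 g1 g2 : A[X]}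
    (h : (1 + C b0 * X) * g0 + (C b1 * X) * g1 + (C b2 * X) * g2 = 1) :
    Compl (![1 + C b0 * X, C b1 * X, C b2 * X] : Fin 3 → A[X]) := by
  obtain ⟨m, s1, s2, hm⟩ := nilp h
  obtain ⟨v, r, hv⟩ := hq A h2 (m + 1)
  have hv' := congrArg (fun p : A[X] => p.comp (C b0 * X)) hv
  simp only [pow_comp, add_comp, mul_comp, one_comp, X_comp] at hv'
  obtain ⟨v', hv1⟩ : ∃ v' : A[X], v' = v.comp (C b0 * X) := ⟨_, rfl⟩
  obtain ⟨r', hr1⟩ : ∃ r' : A[X], r' = r.comp (C b0 * X) := ⟨_, rfl⟩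
  rw [← hv1, ← hr1] at hv'
  have hp : (C b0 * X : A[X]) ^ (m + 1) =
      (C s1 * X ^ m) * (C b1 * X) + (C s2 * X ^ m) * (C b2 * X) := by
    rw [mul_pow, ← C_pow, hm, C_add, C_mul, C_mul, pow_succ]
    ring
  obtain ⟨t1, ht1⟩ : ∃ t1 : A[X], t1 = C s1 * X ^ m * r' := ⟨_, rfl⟩
  obtain ⟨t2, ht2⟩ : ∃ t2 : A[X], t2 = C s2 * X ^ m * r' := ⟨_, rfl⟩
  have hv2 : v' ^ 2 = (1 + C b0 * X) + t1 * (C b1 * X) + t2 * (C b2 * X) := by
    rw [hv', hp, ht1, ht2]
    ring
  have hc : Compl ![v' ^ 2, C b1 * X, C b2 * X] := by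
    refine hs A[X] v' (C b1 * X) (C b2 * X) (v' * g0) (g1 - t1 * g0) (g2 - t2 * g0) ?_
    linear_combination g0 * hv2 + h
  refine compl_of_vecMul (N := !![1, 0, 0; t1, 1, 0; t2, 0, 1]) ?_ ?_
  · rw [Matrix.det_fin_three]
    simp
  · have he : Matrix.vecMul (![1 + C b0 * X, C b1 * X, C b2 * X] : Fin 3 → A[X])
        !![1, 0, 0; t1, 1, 0; t2, 0, 1] = ![v' ^ 2, C b1 * X, C b2 * X] := by
      rw [hv2]
      funext i
      fin_cases i
      · simp [Matrix.vecMul, dotProduct, Fin.sum_univ_three]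
        ring
      · simp [Matrix.vecMul, dotProduct, Fin.sum_univ_three]
      · simp [Matrix.vecMul, dotProduct, Fin.sum_univ_three]
    rw [he]
    exact hc

theorem det_map_unit {A : Type} [CommRing A] {M : Matrix (Fin 3) (Fin 3) A} (h : IsUnit M.det) :
    IsUnit (M.map (C : A →+* A[X])).det := by
  have : (M.map (C : A →+* A[X])).det = C M.det := by
    rw [RingHom.map_det]
    rfl
  rw [this]
  exact h.map C

end Lin

open Lin

theorem linear (hs : S_swan) (hq : S_sqrt) : S_linear := by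
  intro A _ h2 f g hfg hdeg hcompl
  obtain ⟨M, hM, hM0⟩ := hcompl
  have hMi : IsUnit (M⁻¹).det := Matrix.isUnit_nonsing_inv_det M hM
  obtain ⟨N, hN⟩ : ∃ N : Matrix (Fin 3) (Fin 3) A[X], N = (M⁻¹).map (C : A →+* A[X]) := ⟨_, rfl⟩
  obtain ⟨N', hN'⟩ : ∃ N' : Matrix (Fin 3) (Fin 3) A[X], N' = M.map (C : A →+* A[X]) := ⟨_, rfl⟩
  have hNN : N * N' = 1 := by
    rw [hN, hN', ← Matrix.map_mul, Matrix.nonsing_inv_mul M hM]
    exact Matrix.map_one _ (map_zero C) (map_one C)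
  have hNd : IsUnit N.det := by rw [hN]; exact det_map_unit hMi
  refine compl_of_vecMul hNd ?_
  obtain ⟨h, hh⟩ : ∃ h : Fin 3 → A[X], h = Matrix.vecMul f N := ⟨_, rfl⟩
  rw [← hh]
  -- unimodular
  have huni : ∑ i, h i * (Matrix.mulVec N' g) i = 1 := by
    have e1 : h ⬝ᵥ (Matrix.mulVec N' g) = f ⬝ᵥ g := by
      rw [hh, Matrix.dotProduct_mulVec, Matrix.vecMul_vecMul, hNN, Matrix.vecMul_one]
    exact e1.trans hfg
  -- linear
  have hlin : ∀ i, h i = C ((h i).coeff 1) * X + C ((h i).coeff 0) := by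
    intro i
    apply Polynomial.eq_X_add_C_of_natDegree_le_one
    rw [hh]
    show (∑ j, f j * N j i).natDegree ≤ 1
    refine Polynomial.natDegree_sum_le_of_forall_le _ _ (fun j _ => ?_)
    rw [hN]
    show (f j * C ((M⁻¹) j i)).natDegree ≤ 1
    exact (Polynomial.natDegree_mul_C_le _ _).trans (hdeg j)
  -- constant terms
  have hconst : ∀ i, (h i).coeff 0 = (1 : Matrix (Fin 3) (Fin 3) A) 0 i := by
    intro i
    rw [← Matrix.mul_nonsing_inv M hM, Matrix.mul_apply_eq_vecMul, hM0, hh]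
    show (∑ j, f j * N j i).coeff 0 = ∑ j, (f j).eval 0 * (M⁻¹) j i
    rw [Polynomial.finsetSum_coeff]
    refine Finset.sum_congr rfl (fun j _ => ?_)
    rw [hN]
    show (f j * C ((M⁻¹) j i)).coeff 0 = _
    rw [Polynomial.coeff_mul_C, Polynomial.coeff_zero_eq_eval_zero]
  have h0 : h 0 = 1 + C ((h 0).coeff 1) * X := by
    have e := hlin 0
    rw [hconst 0, Matrix.one_apply_eq, map_one, add_comm] at e
    exact e
  have h1 : h 1 = C ((h 1).coeff 1) * X := by
    have e := hlin 1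
    rw [hconst 1, Matrix.one_apply_ne (by decide), map_zero, add_zero] at e
    exact e
  have h2' : h 2 = C ((h 2).coeff 1) * X := by
    have e := hlin 2
    rw [hconst 2, Matrix.one_apply_ne (by decide), map_zero, add_zero] at e
    exact e
  have hform : h = ![1 + C ((h 0).coeff 1) * X, C ((h 1).coeff 1) * X, C ((h 2).coeff 1) * X] := by
    funext i
    fin_cases i
    · exact h0
    · exact h1
    · exact h2'
  rw [hform]
  refine special hs hq h2 (g0 := (Matrix.mulVec N' g) 0) (g1 := (Matrix.mulVec N' g) 1)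
    (g2 := (Matrix.mulVec N' g) 2) ?_
  rw [Fin.sum_univ_three] at huni
  rw [← h0, ← h1, ← h2']
  exact huni

end Pool.Agent.TH38.BQ3
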