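import Pool.Agent.TH38.BQ3.Defs

/-!
# The local case
-/

set_option autoImplicit false

open Polynomial

namespace Pool.Agent.TH38.BQ3

namespace Loc

theorem split_mul {A : Type} [CommRing A] (E : Matrix (Fin 3) (Fin 3) A) (f g : Fin 3 → A)
    (hfg : ∑ i, f i * g i = 1) (hE : ∀ i j, E i j = g i * f j) : Split E := by
  refine ⟨1, Matrix.of fun i _ => g i, Matrix.of fun _ j => f j, ?_, ?_⟩
  · ext i j
    rw [Matrix.mul_apply, hE]
    simp
  · ext i j
    have hi := Subsingleton.elim i j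
    subst hi
    rw [Matrix.mul_apply, Matrix.one_apply_eq]
    simpa using hfg

theorem split_compl {A : Type} [CommRing A] (E : Matrix (Fin 3) (Fin 3) A) (f g : Fin 3 → A)
    (hfg : ∑ i, f i * g i = 1) (hE : ∀ i j, (1 - E) i j = g i * f j) (hc : Compl f) : Split E := by
  obtain ⟨M, hM, hMf⟩ := hc
  obtain ⟨P, hP⟩ : ∃ P, P = 1 - E := ⟨_, rfl⟩
  have hPe : ∀ i j, P i j = g i * f j := by rw [hP]; exact hE
  have h0 : ∀ j, M 0 j = f j := fun j => by rw [hMf]
  obtain ⟨a, ha⟩ : ∃ a, a = ∑ k, M 1 k * g k := ⟨_, rfl⟩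
  obtain ⟨b, hb⟩ : ∃ b, b = ∑ k, M 2 k * g k := ⟨_, rfl⟩
  obtain ⟨U', hU⟩ : ∃ U' : Matrix (Fin 3) (Fin 2) A, U' = !![0, 0; 1, 0; 0, 1] := ⟨_, rfl⟩
  obtain ⟨V', hV⟩ : ∃ V' : Matrix (Fin 2) (Fin 3) A, V' = !![-a, 1, 0; -b, 0, 1] := ⟨_, rfl⟩
  have hVU : V' * U' = 1 := by
    rw [hU, hV]
    ext i j
    fin_cases i <;> fin_cases j <;> simp [Matrix.mul_apply, Fin.sum_univ_three]
  have hUV : U' * V' * M = M - M * P := by
    rw [hU, hV]
    rw [Fin.sum_univ_three] at hfg ha hb
    ext i j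
    have e1 : (M * P) i j = (M i 0 * g 0 + M i 1 * g 1 + M i 2 * g 2) * f j := by
      rw [Matrix.mul_apply, Fin.sum_univ_three, hPe, hPe, hPe]
      ring
    rw [Matrix.sub_apply, e1]
    fin_cases i
    · simp [Matrix.mul_apply, Fin.sum_univ_three, h0]
      linear_combination f j * hfg
    · simp [Matrix.mul_apply, Fin.sum_univ_three, h0]
      linear_combination (-f j) * ha
    · simp [Matrix.mul_apply, Fin.sum_univ_three, h0]
      linear_combination (-f j) * hb
  have hi1 : M * M⁻¹ = 1 := Matrix.mul_nonsing_inv M hM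
  have hi2 : M⁻¹ * M = 1 := Matrix.nonsing_inv_mul M hM
  refine ⟨2, M⁻¹ * U', V' * M, ?_, ?_⟩
  · have e1 : M⁻¹ * U' * (V' * M) = M⁻¹ * (U' * V' * M) := by
      simp only [Matrix.mul_assoc]
    rw [e1, hUV, Matrix.mul_sub, hi2, ← Matrix.mul_assoc, hi2, Matrix.one_mul, hP]
    abel
  · have e1 : V' * M * (M⁻¹ * U') = V' * (M * M⁻¹) * U' := by
      simp only [Matrix.mul_assoc]
    rw [e1, hi1, Matrix.mul_one, hVU]

end Loc

theorem local_split (hr : S_rank) (hc : S_complmv) : S_local := by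
  intro L _ _ _ _ h2 m E hE hdeg
  rcases hr (MvPolynomial (Fin m) L) E hE with h | h | ⟨f, g, hfg, h⟩
  · subst h
    refine ⟨0, 0, 0, ?_, ?_⟩
    · ext i j
      simp
    · ext i
      exact i.elim0
  · subst h
    exact ⟨3, 1, 1, by simp, by simp⟩
  · have hd : ∀ i j k, (g i * f j).degreeOf k ≤ 3 := by
      intro i j k
      rcases h with h | h
      · rw [← h]
        exact hdeg i j k
      · rw [← h, Matrix.sub_apply]
        refine (MvPolynomial.degreeOf_sub_le k _ _).trans (max_le ?_ (hdeg i j k))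
        by_cases hij : i = j
        · subst hij
          rw [Matrix.one_apply_eq, MvPolynomial.degreeOf_one]
          exact Nat.zero_le _
        · rw [Matrix.one_apply_ne hij, MvPolynomial.degreeOf_zero]
          exact Nat.zero_le _
    have hk : ∀ k, (∀ i, (f i).degreeOf k ≤ 1) ∨ ∀ i, (g i).degreeOf k ≤ 1 := by
      intro k
      by_contra hcon
      push Not at hcon
      obtain ⟨⟨j, hj⟩, ⟨i, hi⟩⟩ := hcon
      have h1 := hd i j k
      have hf0 : f j ≠ 0 := by
        intro h0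
        rw [h0, MvPolynomial.degreeOf_zero] at hj
        omega
      have hg0 : g i ≠ 0 := by
        intro h0
        rw [h0, MvPolynomial.degreeOf_zero] at hi
        omega
      rw [MvPolynomial.degreeOf_mul_eq hg0 hf0] at h1
      omega
    rcases h with h | h
    · exact Loc.split_mul E f g hfg h
    · exact Loc.split_compl E f g hfg h (hc L h2 m f g hfg hk)

end Pool.Agent.TH38.BQ3
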