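import Pool.Agent.TH38.BQ3.Defs
import Pool.Agent.H94R2.BQ.T

/-!
# Assembly
-/

set_option autoImplicit false

open Polynomial TensorProduct

namespace Pool.Agent.TH38.BQ3

lemma degreeOf_map_le {R S : Type} [CommRing R] [CommRing S] {σ : Type} (f : R →+* S)
    (p : MvPolynomial σ R) (k : σ) : (MvPolynomial.map f p).degreeOf k ≤ p.degreeOf k := by
  classical
  rw [MvPolynomial.degreeOf_def, MvPolynomial.degreeOf_def]
  exact Multiset.count_le_of_le _ (MvPolynomial.degrees_map_le)

theorem main (hl : S_local) (hp : S_patch) (R : Type) [CommRing R] (h2 : IsUnit (2 : R))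
    (hR : ∀ (q : Ideal R) [q.IsMaximal], ∃ _ : IsDomain (Localization.AtPrime q),
      UniqueFactorizationMonoid (Localization.AtPrime q))
    (m : ℕ) (E : Matrix (Fin 3) (Fin 3) (MvPolynomial (Fin m) R)) (hE : E * E = E)
    (hdeg : ∀ i j k, (E i j).degreeOf k ≤ 3) :
    ∃ (Q : Type) (_ : AddCommGroup Q) (_ : Module R Q),
      Nonempty (LinearMap.range E.mulVecLin ≃ₗ[MvPolynomial (Fin m) R]
        MvPolynomial (Fin m) R ⊗[R] Q) := by
  have hloc : ∀ (q : Ideal R) [q.IsMaximal],
      Split (E.map (MvPolynomial.map (algebraMap R (Localization.AtPrime q)))) := by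
    intro q hq
    obtain ⟨h1, h3⟩ := hR q
    refine hl (Localization.AtPrime q) ?_ m _ ?_ ?_
    · have := h2.map (algebraMap R (Localization.AtPrime q))
      rwa [map_ofNat] at this
    · rw [← Matrix.map_mul, hE]
    · intro i j k
      rw [Matrix.map_apply]
      exact (degreeOf_map_le _ _ _).trans (hdeg i j k)
  obtain ⟨U, V, hUV, hVU⟩ := hp R m 3 E hE hloc
  let P := LinearMap.range E.mulVecLin
  let f : P →ₗ[MvPolynomial (Fin m) R] (Fin 3 → MvPolynomial (Fin m) R) := P.subtype
  let g : (Fin 3 → MvPolynomial (Fin m) R) →ₗ[MvPolynomial (Fin m) R] P :=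
    E.mulVecLin.rangeRestrict
  have hgf : g ∘ₗ f = LinearMap.id := by
    ext1 ⟨v, w, hw⟩
    apply Subtype.ext
    show E.mulVecLin v = v
    rw [← hw, Matrix.mulVecLin_apply, Matrix.mulVecLin_apply, Matrix.mulVec_mulVec, hE]
  have hfg : LinearMap.toMatrix' (f ∘ₗ g) = E := by
    have : f ∘ₗ g = E.mulVecLin := by ext1; rfl
    rw [this, ← Matrix.toLin'_apply', LinearMap.toMatrix'_toLin']
  let E₀ : Matrix (Fin 3) (Fin 3) R := E.map (fun p => MvPolynomial.constantCoeff p)
  have hE₀ : E₀ * E₀ = E₀ := by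
    have h1 : (E * E).map (MvPolynomial.constantCoeff (R := R) (σ := Fin m)) =
        E.map (MvPolynomial.constantCoeff (R := R) (σ := Fin m)) := by rw [hE]
    rw [Matrix.map_mul] at h1
    exact h1
  exact BQ.extended_of_equiv f g hgf E₀ hE₀ U V (by rw [hUV, hfg]) (by rw [hVU]; rfl)

end Pool.Agent.TH38.BQ3
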