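import Pool.Agent.TH38.BQ3.Defs
import Pool.Agent.H94R2.BQ.C
import Pool.Agent.H94R2.BQ.S

/-!
# Quillen patching for one idempotent matrix in several variables
-/

set_option autoImplicit false

open Polynomial

namespace Pool.Agent.TH38.BQ3

namespace Patch

open BQ

theorem patch_mv_one {A : Type} [CommRing A] (m n : ℕ)
    (E : Matrix (Fin n) (Fin n) (MvPolynomial (Fin m) A)) (hE : E * E = E)
    (h : ∀ (q : Ideal A) [q.IsMaximal],
      Split (E.map (MvPolynomial.map (algebraMap A (Localization.AtPrime q))))) :
    ∃ (U V : Matrix (Fin n) (Fin n) (MvPolynomial (Fin m) A)), U * V = E ∧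
      V * U = E.map (fun p => MvPolynomial.C (MvPolynomial.constantCoeff p)) := by
  induction m with
  | zero =>
    refine ⟨E, E, hE, ?_⟩
    rw [hE]
    refine Matrix.ext fun i j => ?_
    rw [Matrix.map_apply]
    have h1 := MvPolynomial.eq_C_of_isEmpty (E i j)
    rw [h1]
    simp
  | succ m ih =>
    set φ := S.φ A m with hφ
    set E' : Matrix (Fin n) (Fin n) (MvPolynomial (Fin m) A)[X] := E.map φ with hE'
    have hE'i : E' * E' = E' := by
      rw [hE']
      have := Matrix.map_mul (L := E) (M := E) (f := (φ : MvPolynomial (Fin (m + 1)) A →+* (MvPolynomial (Fin m) A)[X]))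
      rw [hE] at this
      exact this.symm
    have hloc : ∀ (n' : Ideal (MvPolynomial (Fin m) A)) [n'.IsMaximal], ∃ (s : ℕ)
      (U : Matrix (Fin n) (Fin s) (Localization.AtPrime n')[X])
      (V : Matrix (Fin s) (Fin n) (Localization.AtPrime n')[X]),
      U * V = E'.map (Polynomial.mapRingHom (algebraMap (MvPolynomial (Fin m) A) (Localization.AtPrime n'))) ∧
      V * U = 1 := by
      intro n' hn'
      have hp : (n'.comap (MvPolynomial.C : A →+* MvPolynomial (Fin m) A)) ≠ ⊤ := by
        apply Ideal.comap_ne_top
        exact hn'.ne_top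
      obtain ⟨q, hq, hpq⟩ := Ideal.exists_le_maximal _ hp
      have hqi := hq
      have hunit : ∀ y : q.primeCompl,
          IsUnit (((algebraMap (MvPolynomial (Fin m) A) (Localization.AtPrime n')).comp
            (MvPolynomial.C : A →+* MvPolynomial (Fin m) A)) y) := by
        intro y
        apply IsLocalization.map_units (Localization.AtPrime n')
          (⟨MvPolynomial.C (y : A), ?_⟩ : n'.primeCompl)
        intro hy
        exact y.2 (hpq hy)
      let ψ : Localization.AtPrime q →+* Localization.AtPrime n' :=
        IsLocalization.lift (M := q.primeCompl) (S := Localization.AtPrime q) hunit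
      have hψ : ∀ a : A, ψ (algebraMap A (Localization.AtPrime q) a) =
          algebraMap (MvPolynomial (Fin m) A) (Localization.AtPrime n') (MvPolynomial.C a) := by
        intro a
        exact IsLocalization.lift_eq hunit a
      let χ : MvPolynomial (Fin m) (Localization.AtPrime q) →+* Localization.AtPrime n' :=
        MvPolynomial.eval₂Hom ψ (fun i => algebraMap (MvPolynomial (Fin m) A)
          (Localization.AtPrime n') (MvPolynomial.X i))
      let Ψ : MvPolynomial (Fin (m + 1)) (Localization.AtPrime q) →+* (Localization.AtPrime n')[X] :=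
        (Polynomial.mapRingHom χ).comp (S.φ (Localization.AtPrime q) m :
          MvPolynomial (Fin (m + 1)) (Localization.AtPrime q) →+*
            (MvPolynomial (Fin m) (Localization.AtPrime q))[X])
      have hcomp : Ψ.comp (MvPolynomial.map (algebraMap A (Localization.AtPrime q))) =
          (Polynomial.mapRingHom (algebraMap (MvPolynomial (Fin m) A) (Localization.AtPrime n'))).comp
            (φ : MvPolynomial (Fin (m + 1)) A →+* (MvPolynomial (Fin m) A)[X]) := by
        apply MvPolynomial.ringHom_ext
        · intro a
          show Polynomial.mapRingHom χ (S.φ (Localization.AtPrime q) m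
            (MvPolynomial.map (algebraMap A (Localization.AtPrime q)) (MvPolynomial.C a))) =
            Polynomial.mapRingHom (algebraMap (MvPolynomial (Fin m) A) (Localization.AtPrime n'))
              (S.φ A m (MvPolynomial.C a))
          rw [MvPolynomial.map_C, S.φ_C, S.φ_C]
          simp only [Polynomial.coe_mapRingHom, Polynomial.map_C]
          congr 1
          show MvPolynomial.eval₂Hom ψ _ (MvPolynomial.C _) = _
          rw [MvPolynomial.eval₂Hom_C, hψ]
        · intro i
          show Polynomial.mapRingHom χ (S.φ (Localization.AtPrime q) m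
            (MvPolynomial.map (algebraMap A (Localization.AtPrime q)) (MvPolynomial.X i))) =
            Polynomial.mapRingHom (algebraMap (MvPolynomial (Fin m) A) (Localization.AtPrime n'))
              (S.φ A m (MvPolynomial.X i))
          rw [MvPolynomial.map_X]
          refine Fin.cases ?_ (fun k => ?_) i
          · rw [S.φ_X_zero, S.φ_X_zero]; simp
          · rw [S.φ_X_succ, S.φ_X_succ]
            simp only [Polynomial.coe_mapRingHom, Polynomial.map_C]
            congr 1
            show MvPolynomial.eval₂Hom ψ _ (MvPolynomial.X _) = _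
            rw [MvPolynomial.eval₂Hom_X']
      obtain ⟨s, U, V, hUV, hVU⟩ := h q
      refine ⟨s, U.map Ψ, V.map Ψ, ?_, ?_⟩
      · rw [← Matrix.map_mul, hUV, Matrix.map_map, hE', Matrix.map_map]
        refine Matrix.ext fun i j => ?_
        exact RingHom.congr_fun hcomp (E i j)
      · rw [← Matrix.map_mul, hVU, Matrix.map_one Ψ (map_zero Ψ) (map_one Ψ)]
    obtain ⟨U1, V1, hUV1, hVU1⟩ := patch E' hE'i hloc
    set ev : (MvPolynomial (Fin m) A)[X] →+* MvPolynomial (Fin m) A := Polynomial.evalRingHom 0 with hev
    set E0 : Matrix (Fin n) (Fin n) (MvPolynomial (Fin m) A) := E'.map ev with hE0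
    have hE0i : E0 * E0 = E0 := by
      rw [hE0, ← Matrix.map_mul, hE'i]
    have hm : ∀ (q : Ideal A) [q.IsMaximal],
        Split (E0.map (MvPolynomial.map (algebraMap A (Localization.AtPrime q)))) := by
      intro q hq
      let ρ : MvPolynomial (Fin (m + 1)) (Localization.AtPrime q) →+*
          MvPolynomial (Fin m) (Localization.AtPrime q) :=
        (Polynomial.evalRingHom 0).comp (S.φ (Localization.AtPrime q) m :
          MvPolynomial (Fin (m + 1)) (Localization.AtPrime q) →+*
            (MvPolynomial (Fin m) (Localization.AtPrime q))[X])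
      have hcomp : ρ.comp (MvPolynomial.map (algebraMap A (Localization.AtPrime q))) =
          (MvPolynomial.map (algebraMap A (Localization.AtPrime q))).comp
            (ev.comp (φ : MvPolynomial (Fin (m + 1)) A →+* (MvPolynomial (Fin m) A)[X])) := by
        apply MvPolynomial.ringHom_ext
        · intro a
          show (S.φ (Localization.AtPrime q) m
            (MvPolynomial.map (algebraMap A (Localization.AtPrime q)) (MvPolynomial.C a))).eval 0 =
            MvPolynomial.map (algebraMap A (Localization.AtPrime q))
              ((S.φ A m (MvPolynomial.C a)).eval 0)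
          rw [MvPolynomial.map_C, S.φ_C, S.φ_C, Polynomial.eval_C, Polynomial.eval_C,
            MvPolynomial.map_C]
        · intro i
          show (S.φ (Localization.AtPrime q) m
            (MvPolynomial.map (algebraMap A (Localization.AtPrime q)) (MvPolynomial.X i))).eval 0 =
            MvPolynomial.map (algebraMap A (Localization.AtPrime q))
              ((S.φ A m (MvPolynomial.X i)).eval 0)
          rw [MvPolynomial.map_X]
          refine Fin.cases ?_ (fun k => ?_) i
          · rw [S.φ_X_zero, S.φ_X_zero, Polynomial.eval_X, Polynomial.eval_X, map_zero]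
          · rw [S.φ_X_succ, S.φ_X_succ, Polynomial.eval_C, Polynomial.eval_C,
              MvPolynomial.map_X]
      obtain ⟨s, U, V, hUV, hVU⟩ := h q
      refine ⟨s, U.map ρ, V.map ρ, ?_, ?_⟩
      · rw [← Matrix.map_mul, hUV, Matrix.map_map, hE0, hE', Matrix.map_map, Matrix.map_map]
        refine Matrix.ext fun i j => ?_
        exact RingHom.congr_fun hcomp (E i j)
      · rw [← Matrix.map_mul, hVU, Matrix.map_one ρ (map_zero ρ) (map_one ρ)]
    obtain ⟨U2, V2, hUV2, hVU2⟩ := ih E0 hE0i hm
    set c : MvPolynomial (Fin m) A →+* (MvPolynomial (Fin m) A)[X] := Polynomial.C with hc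
    have hVU1' : V1 * U1 = E0.map c := by
      rw [hVU1, hE0, Matrix.map_map]
      rfl
    have hA : U1 * U2.map c * (V2.map c * V1) = E' := by
      have e1 : U1 * U2.map c * (V2.map c * V1) = U1 * ((U2 * V2).map c) * V1 := by
        rw [Matrix.map_mul]; simp only [Matrix.mul_assoc]
      rw [e1, hUV2, ← hVU1']
      have e2 : U1 * (V1 * U1) * V1 = (U1 * V1) * (U1 * V1) := by
        simp only [Matrix.mul_assoc]
      rw [e2, hUV1, hE'i]
    have hB : V2.map c * V1 * (U1 * U2.map c) = (V2 * U2).map c := by
      have e1 : V2.map c * V1 * (U1 * U2.map c) = V2.map c * (V1 * U1) * U2.map c := by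
        simp only [Matrix.mul_assoc]
      rw [e1, hVU1', ← hUV2]
      have e2 : V2.map c * (U2 * V2).map c * U2.map c = ((V2 * U2) * (V2 * U2)).map c := by
        simp only [Matrix.map_mul, Matrix.mul_assoc]
      rw [e2]
      congr 1
      rw [hVU2]
      have e3 := Matrix.map_mul (L := E0) (M := E0)
        (f := ((MvPolynomial.C : A →+* MvPolynomial (Fin m) A).comp
          (MvPolynomial.constantCoeff : MvPolynomial (Fin m) A →+* A)))
      rw [hE0i] at e3
      exact e3.symm
    refine ⟨(U1 * U2.map c).map φ.symm, (V2.map c * V1).map φ.symm, ?_, ?_⟩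
    · have e1 := Matrix.map_mul (L := U1 * U2.map c) (M := V2.map c * V1)
        (f := (φ.symm : (MvPolynomial (Fin m) A)[X] →+* MvPolynomial (Fin (m + 1)) A))
      rw [hA] at e1
      refine Eq.trans e1.symm ?_
      refine Matrix.ext fun i j => ?_
      show φ.symm (φ (E i j)) = E i j
      simp
    · have e1 := Matrix.map_mul (L := V2.map c * V1) (M := U1 * U2.map c)
        (f := (φ.symm : (MvPolynomial (Fin m) A)[X] →+* MvPolynomial (Fin (m + 1)) A))
      rw [hB, hVU2] at e1
      refine Eq.trans e1.symm ?_
      refine Matrix.ext fun i j => ?_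
      show φ.symm (Polynomial.C (MvPolynomial.C (MvPolynomial.constantCoeff
        ((φ (E i j)).eval 0)))) = MvPolynomial.C (MvPolynomial.constantCoeff (E i j))
      rw [hφ, S.const_φ, ← S.φ_C]
      simp

end Patch

theorem patch_one : S_patch := by
  intro A _ m n E hE h
  exact Patch.patch_mv_one m n E hE h

end Pool.Agent.TH38.BQ3
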