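import Pool.Agent.TH38.BQ3.Defs

set_option autoImplicit false

open Polynomial

namespace Pool.Agent.TH38.BQ3

namespace Rank

/-- over a field, `E` or `1 - E` has rank at most one -/
lemma field_case {K : Type} [Field K] (E : Matrix (Fin 3) (Fin 3) K) (hE : E * E = E) :
    (∃ v c : Fin 3 → K, ∀ i j, E i j = c j * v i) ∨ ∃ v c : Fin 3 → K, ∀ i j, (1 - E) i j = c j * v i := by
  have aux : ∀ F : Matrix (Fin 3) (Fin 3) K, Module.finrank K (LinearMap.range F.toLin') ≤ 1 →
      ∃ v c : Fin 3 → K, ∀ i j, F i j = c j * v i := by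
    intro F hF
    obtain ⟨v, hv⟩ := finrank_le_one_iff.1 hF
    have h1 : ∀ j : Fin 3, ∃ c : K, ∀ i, F i j = c * (v : Fin 3 → K) i := by
      intro j
      obtain ⟨c, hc⟩ := hv ⟨F.toLin' (Pi.single j 1), LinearMap.mem_range_self _ _⟩
      refine ⟨c, fun i => ?_⟩
      have h2 := congrArg (fun w : LinearMap.range F.toLin' => (w : Fin 3 → K) i) hc
      simp only [Submodule.coe_smul, Pi.smul_apply, smul_eq_mul, Matrix.toLin'_apply,
        Matrix.mulVec_single_one, Matrix.col_apply] at h2
      exact h2.symm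
    choose c hc using h1
    exact ⟨v, c, fun i j => hc j i⟩
  have hdis : Disjoint (LinearMap.range E.toLin') (LinearMap.range (1 - E).toLin') := by
    rw [Submodule.disjoint_def]
    rintro x ⟨y, rfl⟩ ⟨z, hz⟩
    have h1 : E.toLin' (E.toLin' y) = E.toLin' y := by
      rw [← LinearMap.comp_apply, ← Matrix.toLin'_mul, hE]
    have h2 : E.toLin' ((1 - E).toLin' z) = 0 := by
      rw [← LinearMap.comp_apply, ← Matrix.toLin'_mul, mul_sub, mul_one, hE, sub_self, map_zero,
        LinearMap.zero_apply]
    rw [hz, h1] at h2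
    exact h2
  have hsum := Submodule.finrank_add_finrank_le_of_disjoint hdis
  rw [Module.finrank_fin_fun] at hsum
  by_cases h : Module.finrank K (LinearMap.range E.toLin') ≤ 1
  · exact Or.inl (aux E h)
  · exact Or.inr (aux (1 - E) (by omega))

/-- idempotent matrices with vanishing minors -/
lemma factor {A : Type} [CommRing A] [IsDomain A] [UniqueFactorizationMonoid A]
    (E : Matrix (Fin 3) (Fin 3) A) (hE : E * E = E) (h0 : E ≠ 0)
    (hm : ∀ i j k l, E i j * E k l = E i l * E k j) :
    ∃ f g : Fin 3 → A, ∑ i, f i * g i = 1 ∧ ∀ i j, E i j = g i * f j := by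
  classical
  let _ : StrongNormalizationMonoid A := UniqueFactorizationMonoid.strongNormalizationMonoid
  let _ : NormalizedGCDMonoid A := UniqueFactorizationMonoid.toNormalizedGCDMonoid A
  obtain ⟨i0, j0, hij⟩ : ∃ i j, E i j ≠ 0 := by
    by_contra h
    push Not at h
    exact h0 (Matrix.ext h)
  obtain ⟨f, hf, hf1⟩ := Finset.extract_gcd (fun j => E i0 j) (Finset.univ_nonempty (α := Fin 3))
  set d := (Finset.univ : Finset (Fin 3)).gcd (fun j => E i0 j) with hd
  have hf' : ∀ j, E i0 j = d * f j := fun j => hf j (Finset.mem_univ j)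
  have hd0 : d ≠ 0 := by
    intro h
    exact hij (by rw [hf' j0, h, zero_mul])
  have hfj : f j0 ≠ 0 := by
    intro h
    exact hij (by rw [hf' j0, h, mul_zero])
  have h1 : ∀ i j l, f j * E i l = f l * E i j := by
    intro i j l
    apply mul_left_cancel₀ hd0
    rw [← mul_assoc, ← mul_assoc, ← hf', ← hf', hm]
  have h2 : ∀ i j, f j ∣ E i j := by
    intro i j
    have h3 : f j ∣ (Finset.univ : Finset (Fin 3)).gcd (fun l => f l * E i j) := by
      apply Finset.dvd_gcd
      intro l _
      exact ⟨E i l, (h1 i j l).symm⟩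
    have h4 := Finset.gcd_mul_right' (s := (Finset.univ : Finset (Fin 3))) (f := f) (a := E i j)
    rw [hf1, one_mul] at h4
    exact h3.trans h4.dvd
  choose g hg using fun i => h2 i j0
  have h4 : ∀ i j, E i j = g i * f j := by
    intro i j
    apply mul_left_cancel₀ hfj
    rw [h1 i j0 j, hg i]
    ring
  refine ⟨f, g, ?_, h4⟩
  have h5 : E i0 j0 = E i0 j0 * ∑ i, f i * g i := by
    have h6 := congrFun (congrFun hE i0) j0
    rw [Matrix.mul_apply] at h6
    conv_lhs => rw [← h6]
    rw [Finset.mul_sum]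
    refine Finset.sum_congr rfl fun k _ => ?_
    rw [h4 i0 k, h4 k j0, h4 i0 j0]
    ring
  exact (mul_left_cancel₀ hij (by rw [mul_one]; exact h5)).symm

lemma minors {A : Type} [CommRing A] [IsDomain A] (F : Matrix (Fin 3) (Fin 3) A)
    (v c : Fin 3 → FractionRing A) (h : ∀ i j, algebraMap A (FractionRing A) (F i j) = c j * v i)
    (i j k l : Fin 3) : F i j * F k l = F i l * F k j := by
  apply IsFractionRing.injective A (FractionRing A)
  rw [map_mul, map_mul, h, h, h, h]
  ring

end Rank

theorem rank : S_rank := by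
  intro A _ _ _ E hE
  by_cases h0 : E = 0
  · exact Or.inl h0
  by_cases h1 : E = 1
  · exact Or.inr (Or.inl h1)
  right; right
  have hmap : (E.map (algebraMap A (FractionRing A))) * (E.map (algebraMap A (FractionRing A))) =
      E.map (algebraMap A (FractionRing A)) := by
    rw [← Matrix.map_mul, hE]
  rcases Rank.field_case _ hmap with ⟨v, c, hv⟩ | ⟨v, c, hv⟩
  · obtain ⟨f, g, hfg, h⟩ := Rank.factor E hE h0
      (Rank.minors E v c fun i j => by rw [← hv i j, Matrix.map_apply])
    exact ⟨f, g, hfg, Or.inl h⟩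
  · have h2 : (1 - E) * (1 - E) = 1 - E := by
      rw [mul_sub, mul_one, sub_mul, one_mul, hE, sub_self, sub_zero]
    have h3 : (1 - E) ≠ 0 := fun h => h1 (sub_eq_zero.1 h).symm
    obtain ⟨f, g, hfg, h⟩ := Rank.factor (1 - E) h2 h3
      (Rank.minors (1 - E) v c fun i j => by
        rw [← hv i j, Matrix.sub_apply, Matrix.sub_apply, Matrix.map_apply, map_sub]
        congr 1
        rw [Matrix.one_apply, Matrix.one_apply]
        split_ifs <;> simp)
    exact ⟨f, g, hfg, Or.inr h⟩

end Pool.Agent.TH38.BQ3
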