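import Mathlib

/-!
# Small idempotent matrices over polynomial rings: definitions and statements
-/

set_option autoImplicit false

open Polynomial

namespace Pool.Agent.TH38.BQ3

/-- A row of length three is completable to an invertible matrix. -/
def Compl {A : Type} [CommRing A] (f : Fin 3 → A) : Prop :=
  ∃ M : Matrix (Fin 3) (Fin 3) A, IsUnit M.det ∧ M 0 = f

/-- The image of the idempotent matrix is free. -/
def Split {A : Type} [CommRing A] {n : ℕ} (E : Matrix (Fin n) (Fin n) A) : Prop :=
  ∃ (s : ℕ) (U : Matrix (Fin n) (Fin s) A) (V : Matrix (Fin s) (Fin n) A), U * V = E ∧ V * U = 1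

/-- Swan-Towber: `(v², c, d)` is completable. -/
def S_swan : Prop :=
  ∀ (A : Type) [CommRing A] (v c d x y z : A), x * v + y * c + z * d = 1 → Compl ![v ^ 2, c, d]

/-- Approximate square roots of `1 + X`. -/
def S_sqrt : Prop :=
  ∀ (A : Type) [CommRing A], IsUnit (2 : A) → ∀ m : ℕ, ∃ v r : A[X], v ^ 2 = 1 + X + X ^ m * r

/-- Linear unimodular rows of length three are completable. -/
def S_linear : Prop :=
  ∀ (A : Type) [CommRing A], IsUnit (2 : A) → ∀ f g : Fin 3 → A[X], ∑ i, f i * g i = 1 →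
    (∀ i, (f i).natDegree ≤ 1) → Compl (fun i => (f i).eval 0) → Compl f

/-- Idempotent matrices of size three over factorial domains. -/
def S_rank : Prop :=
  ∀ (A : Type) [CommRing A] [IsDomain A] [UniqueFactorizationMonoid A]
    (E : Matrix (Fin 3) (Fin 3) A), E * E = E →
    E = 0 ∨ E = 1 ∨ ∃ f g : Fin 3 → A, ∑ i, f i * g i = 1 ∧
      ((∀ i j, E i j = g i * f j) ∨ ∀ i j, (1 - E) i j = g i * f j)

/-- Unimodular rows over polynomial rings over local rings of small degree. -/
def S_complmv : Prop :=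
  ∀ (L : Type) [CommRing L] [IsDomain L] [IsLocalRing L], IsUnit (2 : L) →
    ∀ (m : ℕ) (f g : Fin 3 → MvPolynomial (Fin m) L), ∑ i, f i * g i = 1 →
    (∀ k, (∀ i, (f i).degreeOf k ≤ 1) ∨ ∀ i, (g i).degreeOf k ≤ 1) → Compl f

/-- The local case. -/
def S_local : Prop :=
  ∀ (L : Type) [CommRing L] [IsDomain L] [UniqueFactorizationMonoid L] [IsLocalRing L],
    IsUnit (2 : L) → ∀ (m : ℕ) (E : Matrix (Fin 3) (Fin 3) (MvPolynomial (Fin m) L)), E * E = E →
    (∀ i j k, (E i j).degreeOf k ≤ 3) → Split E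

/-- Quillen patching for one matrix, several variables. -/
def S_patch : Prop :=
  ∀ (A : Type) [CommRing A] (m n : ℕ) (E : Matrix (Fin n) (Fin n) (MvPolynomial (Fin m) A)),
    E * E = E →
    (∀ (q : Ideal A) [q.IsMaximal],
      Split (E.map (MvPolynomial.map (algebraMap A (Localization.AtPrime q))))) →
    ∃ U V : Matrix (Fin n) (Fin n) (MvPolynomial (Fin m) A), U * V = E ∧
      V * U = E.map (fun p => MvPolynomial.C (MvPolynomial.constantCoeff p))

end Pool.Agent.TH38.BQ3
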