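import Pool.Agent.TH38.BQ3.Defs

/-!
# The Swan-Towber matrix and approximate square roots
-/

set_option autoImplicit false

open Polynomial

namespace Pool.Agent.TH38.BQ3

theorem swan : S_swan := by
  intro A _ a b c x y z h
  refine ⟨!![a ^ 2, b, c; b + 2 * a * z, -z ^ 2, -x + y * z; c - 2 * a * y, x + y * z, -y ^ 2],
    ?_, ?_⟩
  · have h1 : (!![a ^ 2, b, c; b + 2 * a * z, -z ^ 2, -x + y * z;
        c - 2 * a * y, x + y * z, -y ^ 2] : Matrix (Fin 3) (Fin 3) A).det = 1 := by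
      rw [Matrix.det_fin_three]
      simp only [Matrix.of_apply, Matrix.cons_val', Matrix.cons_val_zero, Matrix.cons_val_one,
        Matrix.cons_val_fin_one, Matrix.cons_val]
      linear_combination (x * a + y * b + z * c + 1) * h
    rw [h1]
    exact isUnit_one
  · ext i
    fin_cases i <;> rfl

theorem sqrt_aux (A : Type) [CommRing A] (h2 : IsUnit (2 : A)) (m : ℕ) :
    ∃ v r : A[X], v.coeff 0 = 1 ∧ v ^ 2 = 1 + X + X ^ m * r := by
  obtain ⟨h, hh⟩ := h2.exists_left_inv
  induction m with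
  | zero => exact ⟨1, -X, by simp, by ring⟩
  | succ m ih =>
    obtain ⟨v, r, hv, hr⟩ := ih
    by_cases hm : m = 0
    · subst hm
      refine ⟨1, -1, by simp, by simp⟩
    · have hc : (r - C (r.coeff 0) * v).coeff 0 = 0 := by
        simp [hv]
      obtain ⟨t, ht⟩ := X_dvd_iff.mpr hc
      obtain ⟨n, rfl⟩ : ∃ n, m = n + 1 := ⟨m - 1, by omega⟩
      refine ⟨v - C (h * r.coeff 0) * X ^ (n + 1), t + C ((h * r.coeff 0) ^ 2) * X ^ n, ?_, ?_⟩
      · simp [hv, coeff_X_pow]
      · have e1 : (2 : A[X]) * C h = 1 := by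
          rw [← C_ofNat, ← C_mul, mul_comm, hh, C_1]
        have e2 : r = C (r.coeff 0) * v + X * t := by rw [← ht]; ring
        simp only [C_mul, C_pow]
        linear_combination hr + X ^ (n + 1) * e2 - X ^ (n + 1) * C (r.coeff 0) * v * e1

theorem sqrt : S_sqrt := by
  intro A _ h2 m
  obtain ⟨v, r, -, h⟩ := sqrt_aux A h2 m
  exact ⟨v, r, h⟩

end Pool.Agent.TH38.BQ3
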